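import Pool.Agent.H43.PM.M09

/-!
# SP IIL: the bound of `II S (ge ..)` (the heart of Part III)

Modelled on `Pool/Agent/H35/W/IIE.lean` (copy it; its lemmas are private): `a0 = 0`, `a = 0`, `Θ = 1/L^6` fixed, and part (2) uses
the mean square hypothesis `CorL.large` instead of a pointwise bound.  Notation: `L = log x`, `G = ge g N (c/d) 0 Θ s`,
`T0 = L^{4m}`, `T1 = L^4 (Θ x + 1) = x/L^2 + L^4 ≤ x`, `M ≥ x/L^{C0}`, `C6 = 5 C0 + 14`.
`II S G = (1/2π) ∫ |ZZ S t|^2 |Mel G t|^2 dt` (`int_sum_sq_e`), `|ZZ S t|^2 ≤ 8 P`.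
`mel_l` for `|t| ≤ T1`: `2|t|/(Θ M) ≤ 2 (x/L^2 + L^4) L^6 L^{C0}/x ≤ 4 L^{C0+4}`, so with `A_y(t) = cor g 0 M (c/d) (t/2π) y`
   `|Mel G t|^2 ≤ (L^{C6}/x) (|A_N(t)|^2 + (1/x) ∑_{y ∈ Ioc M N} |A_y(t)|^2)`.                                       (*)
 (0) `|t| ≤ T0`: `|A_y| ≤ x/L^{3m}` (`CorL.low` at `t/2π`): `|Mel G t|^2 ≤ 2 x L^{C6 - 6m}`; contribution `≤ 2 T0 · 8 P · 2 x L^{C6-6m} ≤ 32 P x L^{C6-2m}`.
 (1) `T0 < |t| ≤ T1`, `|ZZ S t|^2 ≤ P/L^{E+3}`: `≤ (P/L^{E+3}) ∫ |Mel G|^2 ≤ (P/L^{E+3}) 4π x L^2`?  NO: as in IIE use `ZB = P/L^{E+3}` and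
     `∫|Mel G|^2 ≤ 4π S2`, `S2 ≤ x L^2`; take `ZB = P/L^{E+4}` (adapt `bad_n (E+4)`), contribution `≤ 13 P x/L^{E+2}`.
 (2) `T0 < |t| ≤ T1`, `|ZZ S t|^2 > P/L^{E+4}`: dyadic sets `𝓑_i = {2^i T0 ≤ |t| ≤ min(2^{i+1} T0, T1), ...}`, `i < n = ⌈4L⌉`; `vol 𝓑_i ≤ (2^i T0)^η`
     (`bad_n (E+4) η`, this gives `b`).  `𝓑' = {τ : 2π τ ∈ 𝓑_i}` lies in `T ≤ |τ| ≤ 2T`, `T = 2^i T0/(2π)`, and
     `vol 𝓑' = vol 𝓑_i/(2π) ≤ (2^i T0)^η/(2π) ≤ T^η` as `(2π)^{η-1} ≤ 1`; `T ≥ L^m`, `2T ≤ x ≤ x^2`.  By (*) and `CorL.large`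
     `∫_{𝓑_i} |Mel G|^2 = ... ≤ (L^{C6}/x) · 2π · 2 x^2/L^K = 4π x L^{C6-K}`; contribution `≤ n · 8 P · 4π x L^{C6-K} ≤ P x L^{C6+2-K}`; `K = C6 + E + 4`.
     (`IIE_core` must be changed: `hBμ` becomes `∀ i ∈ I, ∫ t in 𝓑 i, M t ≤ μ i`, and `g3 t = ∑ i ∈ I, (𝓑 i).indicator (fun t => P8 * M t) t`.)
 (3) `|t| > T1`: `mel_tl` (with `S0 = M`, `a0 = 0`, `a = 0`), as in IIE, part 3.
 `m0`: `2m ≥ C6 + E + 4`, `4m ≥` the `m` of `bad_n`, `m ≥ 1`.
-/

set_option autoImplicit false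

namespace Pool.Agent.H76.SP

open Finset MeasureTheory
open Pool.Agent.H91.PK (ee)
open Pool.Agent.H76.EHB
open Pool.Agent.H35.W

/-- the splitting of the integral -/
private theorem IIL_core (F M : ℝ → ℝ) (P8 ZB T0 T1 μ0 K c3 : ℝ) (I : Finset ℕ) (𝓑 : ℕ → Set ℝ)
    (μ : ℕ → ℝ) (hF : ∀ t, 0 ≤ F t) (hF8 : ∀ t, F t ≤ P8) (hM : ∀ t, 0 ≤ M t)
    (hiM : Integrable M) (hK : ∫ t, M t ≤ K) (hiFM : Integrable (fun t => F t * M t))
    (hZB : 0 ≤ ZB) (hT0 : 0 ≤ T0) (hμ0 : 0 ≤ μ0) (hM0 : ∀ t, |t| ≤ T0 → M t ≤ μ0)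
    (hBm : ∀ i ∈ I, MeasurableSet (𝓑 i))
    (hBμ : ∀ i ∈ I, ∫ t in 𝓑 i, M t ≤ μ i)
    (hcov : ∀ t, T0 < |t| → |t| ≤ T1 → ZB < F t → ∃ i ∈ I, t ∈ 𝓑 i)
    (hc3 : 0 ≤ c3) (htl : ∀ t, T1 < |t| → M t ≤ c3 * (1 + t ^ 2)⁻¹) :
    ∫ t, F t * M t ≤ 2 * T0 * (P8 * μ0) + ZB * K + ∑ i ∈ I, P8 * μ i
      + P8 * c3 * Real.pi := by
  have hP8 : 0 ≤ P8 := (hF 0).trans (hF8 0)
  let g1 : ℝ → ℝ := (Set.Icc (-T0) T0).indicator (fun _ => P8 * μ0)
  let g2 : ℝ → ℝ := fun t => ZB * M t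
  let g3 : ℝ → ℝ := fun t => ∑ i ∈ I, (𝓑 i).indicator (fun t => P8 * M t) t
  let g4 : ℝ → ℝ := fun t => (P8 * c3) * (1 + t ^ 2)⁻¹
  have hg1 : Integrable g1 :=
    (integrable_indicator_iff measurableSet_Icc).2 (integrableOn_const (by simp))
  have hg2 : Integrable g2 := hiM.const_mul ZB
  have hg3i : ∀ i ∈ I, Integrable ((𝓑 i).indicator (fun t => P8 * M t)) := fun i hi =>
    (hiM.const_mul P8).indicator (hBm i hi)
  have hg3 : Integrable g3 := integrable_finsetSum I hg3i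
  have hg4 : Integrable g4 := integrable_inv_one_add_sq.const_mul (P8 * c3)
  have hn1 : ∀ t, 0 ≤ g1 t := fun t => Set.indicator_nonneg (fun _ _ => by positivity) t
  have hn2 : ∀ t, 0 ≤ g2 t := fun t => mul_nonneg hZB (hM t)
  have hn3i : ∀ i ∈ I, ∀ t, 0 ≤ (𝓑 i).indicator (fun t => P8 * M t) t := fun i hi t =>
    Set.indicator_nonneg (fun u _ => mul_nonneg hP8 (hM u)) t
  have hn3 : ∀ t, 0 ≤ g3 t := fun t => Finset.sum_nonneg fun i hi => hn3i i hi t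
  have hn4 : ∀ t, 0 ≤ g4 t := fun t => by positivity
  have hpt : ∀ t, F t * M t ≤ g1 t + g2 t + g3 t + g4 t := by
    intro t
    have a1 := hn1 t
    have a2 := hn2 t
    have a3 := hn3 t
    have a4 := hn4 t
    by_cases h0 : |t| ≤ T0
    · have h1 : g1 t = P8 * μ0 :=
        Set.indicator_of_mem (show t ∈ Set.Icc (-T0) T0 from abs_le.1 h0) _
      have h2 : F t * M t ≤ P8 * μ0 := mul_le_mul (hF8 t) (hM0 t h0) (hM t) hP8
      linarith
    · push Not at h0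
      by_cases h1 : |t| ≤ T1
      · by_cases h2 : ZB < F t
        · obtain ⟨i, hi, hti⟩ := hcov t h0 h1 h2
          have h3 : P8 * M t ≤ g3 t := by
            have h4 : (𝓑 i).indicator (fun t => P8 * M t) t ≤ g3 t :=
              Finset.single_le_sum (f := fun i => (𝓑 i).indicator (fun t => P8 * M t) t)
                (fun j hj => hn3i j hj t) hi
            rwa [Set.indicator_of_mem hti] at h4
          have h4 : F t * M t ≤ P8 * M t := mul_le_mul_of_nonneg_right (hF8 t) (hM t)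
          linarith
        · push Not at h2
          have h3 : F t * M t ≤ ZB * M t := mul_le_mul_of_nonneg_right h2 (hM t)
          have h4 : g2 t = ZB * M t := rfl
          linarith
      · push Not at h1
        have h2 : F t * M t ≤ P8 * (c3 * (1 + t ^ 2)⁻¹) :=
          mul_le_mul (hF8 t) (htl t h1) (hM t) hP8
        have h3 : g4 t = P8 * (c3 * (1 + t ^ 2)⁻¹) := by
          show (P8 * c3) * (1 + t ^ 2)⁻¹ = _
          ring
        linarith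
  have hle : ∫ t, F t * M t ≤ ∫ t, (g1 t + g2 t + g3 t + g4 t) :=
    integral_mono hiFM (((hg1.add hg2).add hg3).add hg4) hpt
  have e1 : ∫ t, g1 t = 2 * T0 * (P8 * μ0) := by
    show ∫ t, (Set.Icc (-T0) T0).indicator (fun _ => P8 * μ0) t = _
    rw [integral_indicator measurableSet_Icc, setIntegral_const, smul_eq_mul,
      Real.volume_real_Icc_of_le (by linarith)]
    ring
  have e2 : ∫ t, g2 t ≤ ZB * K := by
    show ∫ t, ZB * M t ≤ _
    rw [integral_const_mul]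
    exact mul_le_mul_of_nonneg_left hK hZB
  have e3 : ∫ t, g3 t ≤ ∑ i ∈ I, P8 * μ i := by
    show ∫ t, ∑ i ∈ I, (𝓑 i).indicator (fun t => P8 * M t) t ≤ _
    rw [integral_finsetSum I hg3i]
    refine Finset.sum_le_sum fun i hi => ?_
    rw [integral_indicator (hBm i hi), integral_const_mul]
    exact mul_le_mul_of_nonneg_left (hBμ i hi) hP8
  have e4 : ∫ t, g4 t = P8 * c3 * Real.pi := by
    show ∫ t, (P8 * c3) * (1 + t ^ 2)⁻¹ = _
    rw [integral_const_mul, integral_univ_inv_one_add_sq]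
  have e5 : ∫ t, (g1 t + g2 t + g3 t + g4 t) = (∫ t, g1 t) + (∫ t, g2 t) + (∫ t, g3 t)
      + ∫ t, g4 t := by
    have k1 : ∫ t, (g1 t + g2 t + g3 t + g4 t) = (∫ t, (g1 t + g2 t + g3 t)) + ∫ t, g4 t :=
      integral_add ((hg1.add hg2).add hg3) hg4
    have k2 : ∫ t, (g1 t + g2 t + g3 t) = (∫ t, (g1 t + g2 t)) + ∫ t, g3 t :=
      integral_add (hg1.add hg2) hg3
    have k3 : ∫ t, (g1 t + g2 t) = (∫ t, g1 t) + ∫ t, g2 t := integral_add hg1 hg2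
    rw [k1, k2, k3]
  linarith

/-- the exponential decay against `1/(1+t^2)` -/
private theorem IIL_exp (t D T : ℝ) (hD : 1 ≤ D) (hT : 20 ≤ T) (ht : T * D ≤ |t|) :
    Real.exp (-(|t| / (20 * D))) ≤ 3208 * D ^ 2 * Real.exp (-(T / 40)) * (1 + t ^ 2)⁻¹ := by
  have hD0 : 0 < D := by linarith
  set u := |t| / (20 * D) with hu
  have ht2 : |t| = 20 * D * u := by rw [hu]; field_simp
  have hu1 : T / 20 ≤ u := by
    rw [hu, le_div_iff₀ (by positivity)]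
    calc T / 20 * (20 * D) = T * D := by ring
      _ ≤ |t| := ht
  have hu2 : 1 ≤ u := by linarith
  have h1 : t ^ 2 = 400 * D ^ 2 * u ^ 2 := by
    rw [← sq_abs, ht2]; ring
  have h2 : u ^ 2 ≤ 8 * Real.exp (u / 2) := by
    have := Real.quadratic_le_exp_of_nonneg (show 0 ≤ u / 2 by linarith)
    nlinarith
  have h3 : 1 + t ^ 2 ≤ 401 * D ^ 2 * u ^ 2 := by
    rw [h1]
    have : 1 ≤ D ^ 2 * u ^ 2 := one_le_mul_of_one_le_of_one_le (one_le_pow₀ hD) (one_le_pow₀ hu2)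
    linarith
  rw [← div_eq_mul_inv, le_div_iff₀ (by positivity)]
  have h4 : Real.exp (-u) = Real.exp (-(u / 2)) * Real.exp (-(u / 2)) := by
    rw [← Real.exp_add]; congr 1; ring
  have h5 : Real.exp (-(u / 2)) * Real.exp (u / 2) = 1 := by
    rw [← Real.exp_add]; simp
  have h6 : Real.exp (-(u / 2)) ≤ Real.exp (-(T / 40)) := Real.exp_le_exp.2 (by linarith)
  calc Real.exp (-u) * (1 + t ^ 2) ≤ Real.exp (-u) * (401 * D ^ 2 * (8 * Real.exp (u / 2))) := by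
        apply mul_le_mul_of_nonneg_left _ (Real.exp_pos _).le
        exact h3.trans (mul_le_mul_of_nonneg_left h2 (by positivity))
    _ = 3208 * D ^ 2 * Real.exp (-(u / 2)) * (Real.exp (-(u / 2)) * Real.exp (u / 2)) := by
        rw [h4]; ring
    _ = 3208 * D ^ 2 * Real.exp (-(u / 2)) := by rw [h5, mul_one]
    _ ≤ 3208 * D ^ 2 * Real.exp (-(T / 40)) := mul_le_mul_of_nonneg_left h6 (by positivity)

private theorem IIL_ZZ_cont (S : Finset ℕ) (hS : ∀ k ∈ S, 1 ≤ k) : Continuous (ZZ S) := by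
  unfold ZZ
  refine continuous_finsetSum _ fun k hk => ?_
  have hk0 : (k : ℂ) ≠ 0 := by
    have := hS k hk
    exact_mod_cast (by omega : k ≠ 0)
  exact Continuous.const_cpow (by fun_prop) (Or.inl hk0)

/-- `∑ |g| ≤ √(N ∑ g²)` -/
private theorem IIL_l1 (g : ℕ → ℝ) (N : ℕ) (X L : ℝ) (hN : (N : ℝ) ≤ X) (hX : 0 ≤ X)
    (h : S2 g N ≤ X * L ^ 2) : (∑ n ∈ Icc 1 N, |g n|) ^ 2 ≤ X ^ 2 * L ^ 2 := by
  have h1 := sq_sum_le_card_mul_sum_sq (s := Icc 1 N) (f := fun n => |g n|)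
  have h2 : ∑ n ∈ Icc 1 N, |g n| ^ 2 = S2 g N := Finset.sum_congr rfl fun n _ => sq_abs _
  have h3 : ((Icc 1 N).card : ℝ) = N := by simp
  have h4 : 0 ≤ S2 g N := Finset.sum_nonneg fun n _ => sq_nonneg _
  calc (∑ n ∈ Icc 1 N, |g n|) ^ 2 ≤ N * S2 g N := by rw [h2, h3] at h1; exact h1
    _ ≤ X * (X * L ^ 2) := mul_le_mul hN h h4 hX
    _ = X ^ 2 * L ^ 2 := by ring

private theorem IIL_fin1 (X L P w T0 : ℝ) (m C6 E k : ℕ) (hX0 : 0 < X) (hLbig : 1000000 ≤ L)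
    (hP0 : 0 < P) (hw1 : 1 ≤ w) (hT0 : T0 = L ^ (4 * m)) (hm2 : 2 * k ≤ m)
    (hk : k = C6 + E + 2) :
    2 * T0 * (8 * P * ((X / L ^ (3 * m)) ^ 2 * L ^ C6 * w ^ 2 / X))
      ≤ 1 / 4 * (P * X / L ^ E * w ^ 2) := by
  have hL0 : 0 < L := by linarith
  have hL1 : 1 ≤ L := by linarith
  have h1 : 2 * T0 * (8 * P * ((X / L ^ (3 * m)) ^ 2 * L ^ C6 * w ^ 2 / X))
      = 16 * (P * X * w ^ 2) * (L ^ C6 / L ^ (2 * m)) := by
    rw [hT0, div_pow, ← pow_mul]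
    have h2 : L ^ (3 * m * 2) = L ^ (4 * m) * L ^ (2 * m) := by rw [← pow_add]; congr 1; ring
    rw [h2]
    field_simp
    ring
  have h2 : L ^ C6 / L ^ (2 * m) ≤ 1 / (64 * L ^ E) := by
    rw [div_le_div_iff₀ (by positivity) (by positivity)]
    have h3 : L ^ (C6 + E + 1) ≤ L ^ (2 * m) := pow_le_pow_right₀ hL1 (by omega)
    have h4 : L ^ (C6 + E + 1) = L * (L ^ C6 * L ^ E) := by ring
    have h5 : 64 * (L ^ C6 * L ^ E) ≤ L * (L ^ C6 * L ^ E) :=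
      mul_le_mul_of_nonneg_right (by linarith) (by positivity)
    calc L ^ C6 * (64 * L ^ E) = 64 * (L ^ C6 * L ^ E) := by ring
      _ ≤ L ^ (2 * m) := by linarith
      _ = 1 * L ^ (2 * m) := (one_mul _).symm
  calc 2 * T0 * (8 * P * ((X / L ^ (3 * m)) ^ 2 * L ^ C6 * w ^ 2 / X))
      = 16 * (P * X * w ^ 2) * (L ^ C6 / L ^ (2 * m)) := h1
    _ ≤ 16 * (P * X * w ^ 2) * (1 / (64 * L ^ E)) := mul_le_mul_of_nonneg_left h2 (by positivity)
    _ = 1 / 4 * (P * X / L ^ E * w ^ 2) := by field_simp; ring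

private theorem IIL_fin2 (X L P w ZB : ℝ) (E : ℕ) (hX0 : 0 < X) (hLbig : 1000000 ≤ L)
    (hP0 : 0 < P) (hw1 : 1 ≤ w) (hZB : ZB = P / L ^ (E + 3)) :
    ZB * (4 * Real.pi * (X * L ^ 2)) ≤ 1 / 4 * (P * X / L ^ E * w ^ 2) := by
  have hL0 : 0 < L := by linarith
  have hw2 : 1 ≤ w ^ 2 := one_le_pow₀ hw1
  rw [hZB]
  have h1 : P / L ^ (E + 3) * (4 * Real.pi * (X * L ^ 2)) = (P * X / L ^ E) * (4 * Real.pi / L) := by
    field_simp
    ring
  have h2 : 4 * Real.pi / L ≤ 1 / 4 := by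
    rw [div_le_iff₀ hL0]
    linarith [Real.pi_lt_four]
  rw [h1]
  calc (P * X / L ^ E) * (4 * Real.pi / L) ≤ (P * X / L ^ E) * (1 / 4) :=
        mul_le_mul_of_nonneg_left h2 (by positivity)
    _ = 1 / 4 * (P * X / L ^ E * 1) := by ring
    _ ≤ 1 / 4 * (P * X / L ^ E * w ^ 2) := by gcongr

private theorem IIL_fin4 (X L P w : ℝ) (E : ℕ) (hX2 : 2 ≤ X) (hLbig : 1000000 ≤ L)
    (hP0 : 0 < P) (hw1 : 1 ≤ w) (hexp : Real.exp L = X) (hLE : L ^ (E + 3) ≤ X) (hLX : L ≤ X) :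
    8 * P * (9 * (X ^ 2 * L ^ 2) * (3208 * (2 * X) ^ 2 * Real.exp (-(L ^ 4 / 40))))
      * Real.pi ≤ 1 / 4 * (P * X / L ^ E * w ^ 2) := by
  have hL0 : 0 < L := by linarith
  have hL1 : 1 ≤ L := by linarith
  have hX0 : 0 < X := by linarith
  have hw2 : 1 ≤ w ^ 2 := one_le_pow₀ hw1
  have h1 : Real.exp (-(L ^ 4 / 40)) ≤ 1 / X ^ 5 := by
    have h2 : 5 * L ≤ L ^ 4 / 40 := by
      have h3 : L ^ 4 = L ^ 3 * L := by ring
      have h4 : 200 ≤ L ^ 3 := by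
        calc (200 : ℝ) ≤ L := by linarith
          _ = L ^ 1 := (pow_one L).symm
          _ ≤ L ^ 3 := pow_le_pow_right₀ hL1 (by norm_num)
      have h5 : 200 * L ≤ L ^ 3 * L := mul_le_mul_of_nonneg_right h4 hL0.le
      linarith
    calc Real.exp (-(L ^ 4 / 40)) ≤ Real.exp (-(5 * L)) := Real.exp_le_exp.2 (by linarith)
      _ = 1 / X ^ 5 := by
          rw [Real.exp_neg, ← hexp, ← Real.exp_nat_mul, one_div]
          norm_num
  have h2 : Real.pi ≤ 4 := Real.pi_lt_four.le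
  have h3 : L ^ (E + 2) * 3695616 * 16 ≤ X ^ 2 := by
    have h4 : L ^ (E + 3) = L * L ^ (E + 2) := by ring
    have h5 : 1000000 * L ^ (E + 2) ≤ L * L ^ (E + 2) :=
      mul_le_mul_of_nonneg_right hLbig (by positivity)
    have h6 : 1000000 * L ^ (E + 2) ≤ X := by linarith
    have h7 : 100 ≤ X := by linarith
    have h8 : 100 * (1000000 * L ^ (E + 2)) ≤ X * X := mul_le_mul h7 h6 (by positivity) hX0.le
    have h9 : 0 < L ^ (E + 2) := by positivity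
    linarith
  calc 8 * P * (9 * (X ^ 2 * L ^ 2) * (3208 * (2 * X) ^ 2 * Real.exp (-(L ^ 4 / 40)))) * Real.pi
      ≤ 8 * P * (9 * (X ^ 2 * L ^ 2) * (3208 * (2 * X) ^ 2 * (1 / X ^ 5))) * 4 := by
        gcongr
    _ = P * X / L ^ E * ((L ^ (E + 2) * 3695616) / X ^ 2) := by
        field_simp
        ring
    _ ≤ P * X / L ^ E * (1 / 4) := by
        apply mul_le_mul_of_nonneg_left _ (by positivity)
        rw [div_le_div_iff₀ (by positivity) (by norm_num)]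
        have h9 : 0 < L ^ (E + 2) := by positivity
        linarith
    _ = 1 / 4 * (P * X / L ^ E * 1) := by ring
    _ ≤ 1 / 4 * (P * X / L ^ E * w ^ 2) := by gcongr

private theorem IIL_fin3 (X L P : ℝ) (C7 E K n : ℕ) (I : Finset ℕ) (hX1 : 1 ≤ X)
    (hLbig : 1000000 ≤ L) (hP0 : 0 < P) (hK : K = C7 + E + 2) (hn : n = ⌈4 * L⌉₊)
    (hI : I ⊆ range n) :
    ∑ _i ∈ I, 8 * P * (4 * Real.pi * X * L ^ C7 / L ^ K) ≤ 1 / 4 * (P * X / L ^ E) := by
  have hL0 : 0 < L := by linarith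
  have hX0 : 0 < X := by linarith
  have h2 : (I.card : ℝ) ≤ 5 * L := by
    have h3 : I.card ≤ n := (Finset.card_le_card hI).trans (by rw [Finset.card_range])
    have h4 : (n : ℝ) < 4 * L + 1 := by
      rw [hn]
      exact Nat.ceil_lt_add_one (by positivity)
    have h5 : (I.card : ℝ) ≤ n := by exact_mod_cast h3
    linarith
  have hpi : Real.pi ≤ 4 := Real.pi_lt_four.le
  rw [Finset.sum_const, nsmul_eq_mul]
  calc (I.card : ℝ) * (8 * P * (4 * Real.pi * X * L ^ C7 / L ^ K))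
      ≤ (5 * L) * (8 * P * (4 * 4 * X * L ^ C7 / L ^ K)) := by
        gcongr
    _ = (P * X / L ^ E) * (640 / L) := by
        rw [hK]
        field_simp
        ring
    _ ≤ (P * X / L ^ E) * (1 / 4) := by
        apply mul_le_mul_of_nonneg_left _ (by positivity)
        rw [div_le_iff₀ hL0]
        linarith
    _ = 1 / 4 * (P * X / L ^ E) := by ring

/-- the change of variables `t = 2 π τ` -/
private theorem IIL_cv (f : ℝ → ℝ) (B : Set ℝ) (hB : MeasurableSet B) :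
    ∫ t in B, f (t / (2 * Real.pi)) =
      2 * Real.pi * ∫ τ in ((2 * Real.pi) * ·) ⁻¹' B, f τ := by
  have hpi : (0 : ℝ) < 2 * Real.pi := by positivity
  have hB' : MeasurableSet (((2 * Real.pi) * ·) ⁻¹' B) := (measurable_const_mul (2 * Real.pi)) hB
  rw [← integral_indicator hB, ← integral_indicator hB']
  have h1 : B.indicator (fun t => f (t / (2 * Real.pi))) =
      fun t => ((((2 * Real.pi) * ·) ⁻¹' B).indicator f) (t / (2 * Real.pi)) := by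
    funext t
    have h2 : 2 * Real.pi * (t / (2 * Real.pi)) = t := by field_simp
    by_cases ht : t ∈ B
    · rw [Set.indicator_of_mem ht, Set.indicator_of_mem]
      simp only [Set.mem_preimage]
      rw [h2]
      exact ht
    · rw [Set.indicator_of_notMem ht, Set.indicator_of_notMem]
      simp only [Set.mem_preimage]
      rw [h2]
      exact ht
  rw [h1, Measure.integral_comp_div, abs_of_pos hpi, smul_eq_mul]

private theorem IIL_vol (B : Set ℝ) :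
    volume.real (((2 * Real.pi) * ·) ⁻¹' B) = (2 * Real.pi)⁻¹ * volume.real B := by
  have hpi : (0 : ℝ) < 2 * Real.pi := by positivity
  rw [measureReal_def, measureReal_def, Real.volume_preimage_mul_left hpi.ne',
    ENNReal.toReal_mul, ENNReal.toReal_ofReal (abs_nonneg _), abs_of_pos (inv_pos.mpr hpi)]

private theorem IIL_piece (Mt : ℝ → ℝ) (f : ℕ → ℝ → ℝ) (B : Set ℝ) (a c J : ℝ) (N : ℕ)
    (s : Finset ℕ) (hB : MeasurableSet B) (hMi : IntegrableOn Mt B)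
    (hfi : ∀ y, IntegrableOn (f y) B) (ha : 0 ≤ a) (hc : 0 ≤ c) (hs : ∀ y ∈ s, y ≤ N)
    (hM : ∀ t ∈ B, Mt t ≤ a * (f N t + c * ∑ y ∈ s, f y t))
    (hJ : ∀ y, y ≤ N → ∫ t in B, f y t ≤ J) :
    ∫ t in B, Mt t ≤ a * (J + c * (s.card * J)) := by
  have h1 : IntegrableOn (fun t => ∑ y ∈ s, f y t) B := integrable_finsetSum s fun y _ => hfi y
  have h2 : IntegrableOn (fun t => f N t + c * ∑ y ∈ s, f y t) B := (hfi N).add (h1.const_mul c)
  refine (setIntegral_mono_on hMi (h2.const_mul a) hB hM).trans ?_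
  rw [integral_const_mul, integral_add (hfi N) (h1.const_mul c), integral_const_mul,
    integral_finsetSum s fun y _ => hfi y]
  apply mul_le_mul_of_nonneg_left _ ha
  apply add_le_add (hJ N le_rfl)
  apply mul_le_mul_of_nonneg_left _ hc
  refine (Finset.sum_le_sum fun y hy => hJ y (hs y hy)).trans ?_
  rw [Finset.sum_const, nsmul_eq_mul]

/-- the size of the Mellin transform in `|t| ≤ T1` -/
private theorem IIL_mel (g : ℕ → ℝ) (N M : ℕ) (α s t X L : ℝ) (C0 : ℕ) (hs : s = 1 ∨ s = -1)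
    (hX : 0 < X) (hL : 1000 ≤ L) (hL6 : L ^ 6 ≤ X) (hM : X / L ^ C0 ≤ M) (hM1 : 1 ≤ M)
    (hN : (N : ℝ) ≤ X) (hg : ∀ n, n ∉ Ioc M N → g n = 0)
    (ht : |t| ≤ L ^ 4 * (1 / L ^ 6 * X + 1)) :
    ‖Mel (ge g N α 0 (1 / L ^ 6) s) t‖ ^ 2
      ≤ L ^ (5 * C0 + 13) / X * (‖cor g 0 M α (t / (2 * Real.pi)) N‖ ^ 2
        + 1 / X * ∑ y ∈ Ioc M N, ‖cor g 0 M α (t / (2 * Real.pi)) y‖ ^ 2) := by
  have hL0 : 0 < L := by linarith
  have hL1 : 1 ≤ L := by linarith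
  have hM0 : (0 : ℝ) < M := by exact_mod_cast hM1
  have hΘ : (0 : ℝ) < 1 / L ^ 6 := by positivity
  refine (mel_l g N M α (1 / L ^ 6) s t hs hΘ hM1 hg).trans ?_
  set a := ‖cor g 0 M α (t / (2 * Real.pi)) N‖ ^ 2 with ha
  set b := ∑ y ∈ Ioc M N, ‖cor g 0 M α (t / (2 * Real.pi)) y‖ ^ 2 with hb
  have ha0 : 0 ≤ a := by positivity
  have hb0 : 0 ≤ b := Finset.sum_nonneg fun y _ => by positivity
  have hMinv : 1 / (M : ℝ) ≤ L ^ C0 / X := by
    rw [div_le_iff₀ (by positivity)] at hM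
    rw [div_le_div_iff₀ hM0 hX, one_mul]
    linarith
  have h1 : 2 * |t| / (1 / L ^ 6 * (M : ℝ)) ≤ 4 * L ^ (C0 + 4) := by
    have h2 : |t| ≤ 2 * X / L ^ 2 := by
      refine ht.trans ?_
      rw [le_div_iff₀ (by positivity)]
      calc L ^ 4 * (1 / L ^ 6 * X + 1) * L ^ 2 = X + L ^ 6 := by field_simp
        _ ≤ 2 * X := by linarith
    calc 2 * |t| / (1 / L ^ 6 * (M : ℝ)) = 2 * |t| * L ^ 6 * (1 / (M : ℝ)) := by field_simp
      _ ≤ 2 * (2 * X / L ^ 2) * L ^ 6 * (L ^ C0 / X) := by gcongr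
      _ = 4 * L ^ (C0 + 4) := by
          field_simp
          ring
  have h3 : 1 + 2 * |t| / (1 / L ^ 6 * (M : ℝ)) ≤ 5 * L ^ (C0 + 4) := by
    have : 1 ≤ L ^ (C0 + 4) := one_le_pow₀ hL1
    linarith
  have h4 : (1 + 2 * |t| / (1 / L ^ 6 * (M : ℝ))) ^ 2 / (M : ℝ) ^ 2 * N ≤
      25 * L ^ (4 * C0 + 8) * (1 / X) := by
    calc (1 + 2 * |t| / (1 / L ^ 6 * (M : ℝ))) ^ 2 / (M : ℝ) ^ 2 * N
        = (1 + 2 * |t| / (1 / L ^ 6 * (M : ℝ))) ^ 2 * (1 / (M : ℝ)) ^ 2 * N := by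
          field_simp
      _ ≤ (5 * L ^ (C0 + 4)) ^ 2 * (L ^ C0 / X) ^ 2 * X := by gcongr
      _ = 25 * L ^ (4 * C0 + 8) * (1 / X) := by
          field_simp
          ring
  have h5 : 6 / (M : ℝ) ≤ 6 * L ^ C0 / X := by
    calc 6 / (M : ℝ) = 6 * (1 / (M : ℝ)) := by ring
      _ ≤ 6 * (L ^ C0 / X) := by linarith
      _ = _ := by ring
  have h6 : 6 * L ^ C0 ≤ L ^ (5 * C0 + 13) := by
    have e1 : L ^ C0 ≤ L ^ (5 * C0 + 12) := pow_le_pow_right₀ hL1 (by omega)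
    have e2 : L ^ (5 * C0 + 13) = L * L ^ (5 * C0 + 12) := by ring
    rw [e2]
    have e3 : 0 < L ^ C0 := by positivity
    calc 6 * L ^ C0 ≤ L * L ^ C0 := mul_le_mul_of_nonneg_right (by linarith) e3.le
      _ ≤ L * L ^ (5 * C0 + 12) := mul_le_mul_of_nonneg_left e1 hL0.le
  have h7 : 6 * L ^ C0 * (25 * L ^ (4 * C0 + 8)) ≤ L ^ (5 * C0 + 13) := by
    have e1 : L ^ (5 * C0 + 8) ≤ L ^ (5 * C0 + 12) := pow_le_pow_right₀ hL1 (by omega)
    have e2 : L ^ (5 * C0 + 13) = L * L ^ (5 * C0 + 12) := by ring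
    rw [e2]
    have e3 : 0 < L ^ (5 * C0 + 8) := by positivity
    calc 6 * L ^ C0 * (25 * L ^ (4 * C0 + 8)) = 150 * L ^ (5 * C0 + 8) := by ring
      _ ≤ L * L ^ (5 * C0 + 8) := mul_le_mul_of_nonneg_right (by linarith) e3.le
      _ ≤ L * L ^ (5 * C0 + 12) := mul_le_mul_of_nonneg_left e1 hL0.le
  calc 6 / (M : ℝ) * (a + (1 + 2 * |t| / (1 / L ^ 6 * (M : ℝ))) ^ 2 / (M : ℝ) ^ 2 * N * b)
      ≤ 6 * L ^ C0 / X * (a + 25 * L ^ (4 * C0 + 8) * (1 / X) * b) := by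
        apply mul_le_mul h5 _ (by positivity) (by positivity)
        have := mul_le_mul_of_nonneg_right h4 hb0
        linarith
    _ = (6 * L ^ C0) / X * a + (6 * L ^ C0 * (25 * L ^ (4 * C0 + 8))) / X * ((1 / X) * b) := by
        ring
    _ ≤ L ^ (5 * C0 + 13) / X * a + L ^ (5 * C0 + 13) / X * ((1 / X) * b) := by
        apply add_le_add
        · apply mul_le_mul_of_nonneg_right _ ha0
          exact div_le_div_of_nonneg_right h6 hX.le
        · apply mul_le_mul_of_nonneg_right _ (by positivity)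
          exact div_le_div_of_nonneg_right h7 hX.le
    _ = _ := by ring

private theorem IIL_cor_cont (g : ℕ → ℝ) (M : ℕ) (α : ℝ) (y : ℕ) :
    Continuous (fun τ : ℝ => ‖cor g 0 M α τ y‖ ^ 2) := by
  refine (Continuous.norm ?_).pow 2
  unfold cor
  refine continuous_finsetSum _ fun n _ => continuous_const.mul ?_
  exact continuous_ee.comp (by fun_prop)

theorem ii_l (B C0 E : ℕ) (η : ℝ) (hη : 0 < η) (hη1 : η ≤ 1) : ∃ b K m0 : ℕ, ∀ m : ℕ, m0 ≤ m →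
    ∃ x0 : ℕ, ∀ x : ℕ, x0 ≤ x → ∀ (g : ℕ → ℝ) (N M P d : ℕ) (S : Finset ℕ) (c : ℤ) (s : ℝ),
      CorL x B m K η N M g → N ≤ x → x / Real.log x ^ C0 ≤ M → Real.log x ^ b ≤ P →
      P ≤ x → S ⊆ pb P → 1 ≤ d → (d : ℝ) ≤ Real.log x ^ B → IsCoprime c (d : ℤ) →
      (s = 1 ∨ s = -1) →
      II S (ge g N ((c : ℝ) / d) 0 (1 / Real.log x ^ 6) s) ≤ P * x / Real.log x ^ E := by
  obtain ⟨b, mb, xb, hbad⟩ := bad_n (E + 3) η hη
  obtain ⟨C7, hC7⟩ : ∃ C7 : ℕ, C7 = 5 * C0 + 13 := ⟨_, rfl⟩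
  obtain ⟨C6, hC6⟩ : ∃ C6 : ℕ, C6 = C7 + 1 := ⟨_, rfl⟩
  obtain ⟨k, hk⟩ : ∃ k : ℕ, k = C6 + E + 2 := ⟨_, rfl⟩
  obtain ⟨K, hKdef⟩ : ∃ K : ℕ, K = C7 + E + 2 := ⟨_, rfl⟩
  refine ⟨b, K, max mb (2 * k), fun m hm => ?_⟩
  have hm1 : mb ≤ m := (le_max_left _ _).trans hm
  have hm2 : 2 * k ≤ m := (le_max_right _ _).trans hm
  obtain ⟨x1, hx1⟩ := Pool.Agent.H91.EHA.log_ge 1000000
  obtain ⟨x2, hx2⟩ := Pool.Agent.H91.EHA.log_pow_le_rpow (4 * m) (1 / 2) (by norm_num)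
  obtain ⟨x4, hx4⟩ := Pool.Agent.H91.EHA.log_pow_le_rpow (E + 6 + C0) 1 (by norm_num)
  refine ⟨max xb (max x1 (max x2 (max x4 2))), ?_⟩
  intro x hx g N M P d S c s hcor hNx hM hP hPx hS hd hdB hcop hs
  simp only [max_le_iff] at hx
  obtain ⟨hxb, hxx1, hxx2, hxx4, hxx5⟩ := hx
  have hLbig := hx1 x hxx1
  have hL2 := hx2 x hxx2
  have hL4 := hx4 x hxx4
  have hX2 : (2 : ℝ) ≤ x := by exact_mod_cast hxx5
  have hbx := hbad x hxb P S
  have hNX : (N : ℝ) ≤ x := by exact_mod_cast hNx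
  have hPX : (P : ℝ) ≤ x := by exact_mod_cast hPx
  set L := Real.log x with hLdef
  obtain ⟨X, hXdef⟩ : ∃ X : ℝ, X = (x : ℝ) := ⟨_, rfl⟩
  have hLX : L ≤ X := by
    rw [hXdef, hLdef]
    linarith [Real.log_le_sub_one_of_pos (show (0:ℝ) < x by linarith)]
  have hexp : Real.exp L = X := by rw [hLdef, Real.exp_log (by linarith), hXdef]
  rw [Real.rpow_one] at hL4
  rw [← hXdef] at hX2 hL2 hL4 hNX hPX hM ⊢
  have hX0 : 0 < X := by linarith
  have hX1 : 1 ≤ X := by linarith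
  have hL0 : 0 < L := by linarith
  have hL1 : 1 ≤ L := by linarith
  have hPL : 1 ≤ (P : ℝ) := (one_le_pow₀ hL1).trans hP
  have hP0 : 0 < (P : ℝ) := by linarith
  have hL5 : L ^ 5 ≤ X := (pow_le_pow_right₀ hL1 (by omega)).trans hL4
  have hL6 : L ^ 6 ≤ X := (pow_le_pow_right₀ hL1 (by omega)).trans hL4
  have hLE : L ^ (E + 3) ≤ X := (pow_le_pow_right₀ hL1 (by omega)).trans hL4
  have hS0 : 1 ≤ X / L ^ C0 := by
    rw [one_le_div (by positivity)]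
    exact (pow_le_pow_right₀ hL1 (by omega)).trans hL4
  have hM1 : 1 ≤ M := by
    have : (1 : ℝ) ≤ (M : ℝ) := hS0.trans hM
    exact_mod_cast this
  -- the parameters
  obtain ⟨T0, hT0⟩ : ∃ T0 : ℝ, T0 = L ^ (4 * m) := ⟨_, rfl⟩
  obtain ⟨T1, hT1⟩ : ∃ T1 : ℝ, T1 = L ^ 4 * (1 / L ^ 6 * X + 1) := ⟨_, rfl⟩
  have hT01 : 1 ≤ T0 := hT0 ▸ one_le_pow₀ hL1
  have hT00 : 0 < T0 := by linarith
  have hT1' : T1 = X / L ^ 2 + L ^ 4 := by
    rw [hT1]
    field_simp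
  have hT0T1 : T0 ≤ T1 := by
    rw [hT1']
    have h1 : T0 ≤ X / L ^ 2 := by
      rw [le_div_iff₀ (by positivity), hT0]
      have h2 : L ^ 2 ≤ L ^ (4 * m) := pow_le_pow_right₀ hL1 (by omega)
      calc L ^ (4 * m) * L ^ 2 ≤ X ^ (1 / 2 : ℝ) * X ^ (1 / 2 : ℝ) :=
            mul_le_mul hL2 (h2.trans hL2) (by positivity) (by positivity)
        _ = X := by rw [← Real.rpow_add hX0]; norm_num
    have h2 : 0 ≤ L ^ 4 := by positivity
    linarith
  have hT1X' : T1 ≤ X := by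
    rw [hT1']
    have h1 : X / L ^ 2 ≤ X / 2 := by
      apply div_le_div_of_nonneg_left hX0.le (by norm_num)
      nlinarith
    have h2 : 2 * L ^ 4 ≤ L ^ 5 := by
      have : L ^ 5 = L * L ^ 4 := by ring
      rw [this]
      exact mul_le_mul_of_nonneg_right (by linarith) (by positivity)
    linarith
  have hT1X : T1 ≤ X ^ 2 := by
    refine hT1X'.trans ?_
    rw [sq]
    exact le_mul_of_one_le_right hX0.le hX1
  have hT1pos : 0 < T1 := by linarith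
  -- the function
  obtain ⟨G, hG⟩ : ∃ G : ℝ → ℂ, G = ge g N ((c : ℝ) / d) 0 (1 / L ^ 6) s := ⟨_, rfl⟩
  have hΘ0 : 0 < 1 / L ^ 6 := by positivity
  have hΘ1 : 1 / L ^ 6 ≤ 1 := by
    rw [div_le_one (by positivity)]
    exact one_le_pow₀ hL1
  have hS1 : ∀ k ∈ S, 1 ≤ k := fun k hk => by
    have h1 := hS hk
    simp only [pb, Finset.mem_filter, Finset.mem_Ioc] at h1
    omega
  have hS2 : S ⊆ Icc 1 (2 * P) := fun k hk => by
    have h1 := hS hk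
    simp only [pb, Finset.mem_filter, Finset.mem_Ioc] at h1
    exact Finset.mem_Icc.2 ⟨by omega, h1.1.2⟩
  have hGm : Measurable G := hG ▸ ge_measurable g N _ 0 _ s
  have hGb : ∀ θ, 0 < θ → ‖G θ‖ ≤ (∑ n ∈ Icc 1 N, |g n|) * Real.exp (-(1 / (1 / L ^ 6) * θ)) := by
    intro θ hθ
    rw [hG]
    have h1 := norm_ge_le g N ((c : ℝ) / d) 0 (1 / L ^ 6) s θ hθ
    have h2 : θ / (1 / L ^ 6) = 1 / (1 / L ^ 6) * θ := by ring
    rwa [h2] at h1
  obtain ⟨hI1, hI2⟩ := int_sum_sq_e S hS1 G hGm _ _ (one_div_pos.2 hΘ0) hGb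
  obtain ⟨hJ1, hJ2⟩ := mel_planch_e G hGm _ _ (one_div_pos.2 hΘ0) hGb
  have hS2g : S2 g N ≤ X * L ^ 2 := by rw [hXdef]; exact hcor.sq
  have hK : ∫ t, ‖Mel G t‖ ^ 2 ≤ 4 * Real.pi * (X * L ^ 2) := by
    rw [hJ2]
    have h1 := ge_L2 g N ((c : ℝ) / d) 0 (1 / L ^ 6) s hΘ0 hΘ1 hs
    rw [← hG] at h1
    have h2 : (0 : ℝ) ≤ 2 * Real.pi := by positivity
    calc 2 * Real.pi * ∫ θ in Set.Ioi (0 : ℝ), ‖G θ‖ ^ 2 ≤ 2 * Real.pi * (2 * (X * L ^ 2)) :=
          mul_le_mul_of_nonneg_left (h1.trans (by linarith)) h2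
      _ = 4 * Real.pi * (X * L ^ 2) := by ring
  have hmel : ∀ t : ℝ, |t| ≤ T1 →
      ‖Mel G t‖ ^ 2 ≤ L ^ C7 / X * (‖cor g 0 M ((c : ℝ) / d) (t / (2 * Real.pi)) N‖ ^ 2
        + 1 / X * ∑ y ∈ Ioc M N, ‖cor g 0 M ((c : ℝ) / d) (t / (2 * Real.pi)) y‖ ^ 2) := by
    intro t ht
    rw [hG, hC7]
    exact IIL_mel g N M _ s t X L C0 hs hX0 (by linarith) hL6 hM hM1 hNX hcor.supp (hT1 ▸ ht)
  have hcardN : ((Ioc M N).card : ℝ) ≤ X := by
    rw [Nat.card_Ioc]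
    have : ((N - M : ℕ) : ℝ) ≤ (N : ℝ) := by exact_mod_cast Nat.sub_le _ _
    linarith
  have h2pi : ∀ t : ℝ, |t / (2 * Real.pi)| ≤ |t| := by
    intro t
    rw [abs_div, abs_of_pos (show 0 < 2 * Real.pi by positivity)]
    exact div_le_self (abs_nonneg _) (by linarith [Real.pi_gt_three])
  -- the dyadic pieces
  obtain ⟨n, hn⟩ : ∃ n : ℕ, n = ⌈4 * L⌉₊ := ⟨_, rfl⟩
  obtain ⟨I, hI⟩ : ∃ I : Finset ℕ, I = (range n).filter (fun i => 2 ^ i * T0 ≤ T1) := ⟨_, rfl⟩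
  obtain ⟨ZB, hZB⟩ : ∃ ZB : ℝ, ZB = P / L ^ (E + 3) := ⟨_, rfl⟩
  obtain ⟨𝓑, h𝓑⟩ : ∃ 𝓑 : ℕ → Set ℝ, 𝓑 = fun i =>
    {t | (2 ^ i * T0 ≤ |t| ∧ |t| ≤ T1) ∧ |t| ≤ 2 * (2 ^ i * T0) ∧ ZB < ‖ZZ S t‖ ^ 2} := ⟨_, rfl⟩
  have hBmeas : ∀ i, MeasurableSet (𝓑 i) := by
    intro i
    rw [h𝓑]
    have hcont : Continuous (fun t => ‖ZZ S t‖ ^ 2) := (IIL_ZZ_cont S hS1).norm.pow 2
    apply MeasurableSet.inter
    · exact ((isClosed_le continuous_const continuous_abs).inter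
        (isClosed_le continuous_abs continuous_const)).measurableSet
    · exact (isClosed_le continuous_abs continuous_const).measurableSet.inter
        (isOpen_lt continuous_const hcont).measurableSet
  have hcore := IIL_core (fun t => ‖ZZ S t‖ ^ 2) (fun t => ‖Mel G t‖ ^ 2) (8 * P) ZB T0 T1
    ((X / L ^ (3 * m)) ^ 2 * L ^ C6 * 1 ^ 2 / X) (4 * Real.pi * (X * L ^ 2))
    (9 * (X ^ 2 * L ^ 2) * (3208 * (2 * X) ^ 2 * Real.exp (-(L ^ 4 / 40)))) I 𝓑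
    (fun _ => 4 * Real.pi * X * L ^ C7 / L ^ K)
    (fun t => sq_nonneg _) (fun t => by
      have h1 := norm_ZZ_sq_le (2 * P) S hS2 t
      push_cast at h1
      linarith) (fun t => sq_nonneg _) hJ1 hK hI1 (by rw [hZB]; positivity) hT00.le
    (by positivity) ?_ ?_ ?_ ?_ (by positivity) ?_
  rotate_left
  · -- small t
    intro t ht
    refine (hmel t (ht.trans hT0T1)).trans ?_
    have hlow : ∀ y : ℕ, y ≤ N →
        ‖cor g 0 M ((c : ℝ) / d) (t / (2 * Real.pi)) y‖ ^ 2 ≤ (X / L ^ (3 * m)) ^ 2 := by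
      intro y hy
      apply pow_le_pow_left₀ (norm_nonneg _)
      rw [hXdef]
      exact hcor.low c d (t / (2 * Real.pi)) y hd hdB hcop hy ((h2pi t).trans (hT0 ▸ ht))
    set Q := (X / L ^ (3 * m)) ^ 2 with hQ
    have hQ0 : 0 ≤ Q := by positivity
    have h1 : ∑ y ∈ Ioc M N, ‖cor g 0 M ((c : ℝ) / d) (t / (2 * Real.pi)) y‖ ^ 2 ≤ X * Q := by
      refine (Finset.sum_le_sum fun y hy => hlow y (Finset.mem_Ioc.1 hy).2).trans ?_
      rw [Finset.sum_const, nsmul_eq_mul]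
      exact mul_le_mul_of_nonneg_right hcardN hQ0
    calc L ^ C7 / X * (‖cor g 0 M ((c : ℝ) / d) (t / (2 * Real.pi)) N‖ ^ 2
        + 1 / X * ∑ y ∈ Ioc M N, ‖cor g 0 M ((c : ℝ) / d) (t / (2 * Real.pi)) y‖ ^ 2)
        ≤ L ^ C7 / X * (Q + 1 / X * (X * Q)) := by
          apply mul_le_mul_of_nonneg_left _ (by positivity)
          apply add_le_add (hlow N le_rfl)
          exact mul_le_mul_of_nonneg_left h1 (by positivity)
      _ = 2 * L ^ C7 * Q / X := by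
          field_simp
          ring
      _ ≤ L * L ^ C7 * Q / X := by
          apply div_le_div_of_nonneg_right _ hX0.le
          apply mul_le_mul_of_nonneg_right _ hQ0
          exact mul_le_mul_of_nonneg_right (by linarith) (by positivity)
      _ = Q * L ^ C6 * 1 ^ 2 / X := by
          rw [hC6]
          ring
  · -- measurability
    intro i _
    exact hBmeas i
  · -- the pieces
    intro i hi
    rw [hI, Finset.mem_filter] at hi
    have hTi : T0 ≤ 2 ^ i * T0 := le_mul_of_one_le_left hT00.le (one_le_pow₀ (by norm_num))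
    have hTi' : L ^ mb ≤ 2 ^ i * T0 := by
      have h0 : L ^ mb ≤ L ^ (4 * m) := pow_le_pow_right₀ hL1 (by omega)
      rw [← hT0] at h0
      exact h0.trans hTi
    have hTi0 : 0 < 2 ^ i * T0 := by positivity
    have h1 := hbx (2 ^ i * T0) hP hPx hS hTi' (by
        rw [← hXdef]
        refine hi.2.trans (hT1X.trans ?_)
        exact pow_le_pow_right₀ hX1 (by norm_num))
    have hvol : volume.real (𝓑 i) ≤ (2 ^ i * T0) ^ η := by
      refine le_trans (measureReal_mono ?_ ?_) h1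
      · rw [h𝓑, hZB]
        intro t ht
        exact ht.2
      · have h2 : {t : ℝ | |t| ≤ 2 * (2 ^ i * T0) ∧ P / L ^ (E + 3) < ‖ZZ S t‖ ^ 2} ⊆
            Set.Icc (-(2 * (2 ^ i * T0))) (2 * (2 ^ i * T0)) := fun t ht => abs_le.1 ht.1
        exact ne_top_of_le_ne_top (by rw [Real.volume_Icc]; exact ENNReal.ofReal_ne_top)
          (measure_mono h2)
    have hsub : 𝓑 i ⊆ Set.Icc (-T1) T1 := by
      rw [h𝓑]
      exact fun t ht => abs_le.1 ht.1.2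
    have hpi0 : 0 < 2 * Real.pi := by positivity
    have hpi1 : 1 ≤ 2 * Real.pi := by linarith [Real.pi_gt_three]
    have hJ : ∀ y, y ≤ N → ∫ t in 𝓑 i, ‖cor g 0 M ((c : ℝ) / d) (t / (2 * Real.pi)) y‖ ^ 2 ≤
        2 * Real.pi * (X ^ 2 / L ^ K) := by
      intro y hy
      rw [IIL_cv (fun τ => ‖cor g 0 M ((c : ℝ) / d) τ y‖ ^ 2) (𝓑 i) (hBmeas i)]
      apply mul_le_mul_of_nonneg_left _ hpi0.le
      have h2 := hcor.large c d y ((2 ^ i * T0) / (2 * Real.pi))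
        (((2 * Real.pi) * ·) ⁻¹' (𝓑 i)) hd hdB hcop hy ?_ ?_
        ((measurable_const_mul (2 * Real.pi)) (hBmeas i)) ?_ ?_
      · rw [hXdef]
        exact h2
      · rw [le_div_iff₀ hpi0]
        have h3 : L ^ m * (2 * Real.pi) ≤ L ^ m * L := by
          apply mul_le_mul_of_nonneg_left _ (by positivity)
          linarith [Real.pi_lt_four]
        have h4 : L ^ m * L ≤ L ^ (4 * m) := by
          rw [← pow_succ]
          exact pow_le_pow_right₀ hL1 (by omega)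
        exact h3.trans (h4.trans (hT0 ▸ hTi))
      · rw [← hXdef]
        have h3 : (2 ^ i * T0) / (2 * Real.pi) ≤ (2 ^ i * T0) / 2 :=
          div_le_div_of_nonneg_left hTi0.le (by norm_num) (by linarith [Real.pi_gt_three])
        have h4 := hi.2
        linarith
      · intro τ hτ
        rw [Set.mem_preimage, h𝓑] at hτ
        obtain ⟨⟨e1, _⟩, e2, _⟩ := hτ
        rw [abs_mul, abs_of_pos hpi0] at e1 e2
        constructor
        · rw [div_le_iff₀ hpi0]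
          linarith
        · have e3 : 2 * ((2 ^ i * T0) / (2 * Real.pi)) = (2 * (2 ^ i * T0)) / (2 * Real.pi) := by
            ring
          rw [e3, le_div_iff₀ hpi0]
          linarith
      · rw [IIL_vol, Real.div_rpow hTi0.le hpi0.le, inv_mul_eq_div]
        have h3 : (2 * Real.pi) ^ η ≤ 2 * Real.pi := by
          calc (2 * Real.pi) ^ η ≤ (2 * Real.pi) ^ (1 : ℝ) :=
                Real.rpow_le_rpow_of_exponent_le hpi1 hη1
            _ = 2 * Real.pi := Real.rpow_one _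
        have h4 : 0 < (2 * Real.pi) ^ η := Real.rpow_pos_of_pos hpi0 _
        exact div_le_div₀ (Real.rpow_nonneg hTi0.le _) hvol h4 h3
    have h2 := IIL_piece (fun t => ‖Mel G t‖ ^ 2)
      (fun y t => ‖cor g 0 M ((c : ℝ) / d) (t / (2 * Real.pi)) y‖ ^ 2) (𝓑 i) (L ^ C7 / X) (1 / X)
      (2 * Real.pi * (X ^ 2 / L ^ K)) N (Ioc M N) (hBmeas i) hJ1.integrableOn
      (fun y => by
        have h3 : Continuous (fun t : ℝ =>
            ‖cor g 0 M ((c : ℝ) / d) (t / (2 * Real.pi)) y‖ ^ 2) :=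
          (IIL_cor_cont g M ((c : ℝ) / d) y).comp (by fun_prop)
        exact (h3.integrableOn_Icc).mono_set hsub)
      (by positivity) (by positivity) (fun y hy => (Finset.mem_Ioc.1 hy).2)
      (fun t ht => hmel t (by
        rw [h𝓑] at ht
        exact ht.1.2)) hJ
    refine h2.trans ?_
    have h3 : (1 / X) * ((Ioc M N).card * (2 * Real.pi * (X ^ 2 / L ^ K))) ≤
        (1 / X) * (X * (2 * Real.pi * (X ^ 2 / L ^ K))) := by
      gcongr
    calc L ^ C7 / X * (2 * Real.pi * (X ^ 2 / L ^ K) +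
          1 / X * ((Ioc M N).card * (2 * Real.pi * (X ^ 2 / L ^ K))))
        ≤ L ^ C7 / X * (2 * Real.pi * (X ^ 2 / L ^ K) +
          (1 / X) * (X * (2 * Real.pi * (X ^ 2 / L ^ K)))) := by
          apply mul_le_mul_of_nonneg_left _ (by positivity)
          linarith
      _ = 4 * Real.pi * X * L ^ C7 / L ^ K := by
          field_simp
          ring
  · -- covering
    intro t ht0 ht1 htZ
    obtain ⟨i, hi1, hi2⟩ := exists_nat_pow_near (x := |t| / T0) (y := 2)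
      ((one_le_div hT00).2 ht0.le) (by norm_num)
    rw [le_div_iff₀ hT00] at hi1
    rw [div_lt_iff₀ hT00] at hi2
    refine ⟨i, ?_, ?_⟩
    · rw [hI, Finset.mem_filter, Finset.mem_range]
      refine ⟨?_, hi1.trans ht1⟩
      have h1 : (2 : ℝ) ^ i ≤ X ^ 2 := by
        calc (2 : ℝ) ^ i ≤ 2 ^ i * T0 := le_mul_of_one_le_right (by positivity) hT01
          _ ≤ X ^ 2 := hi1.trans (ht1.trans hT1X)
      have h2 : Real.log (2 ^ i) ≤ Real.log (X ^ 2) := Real.log_le_log (by positivity) h1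
      rw [Real.log_pow, Real.log_pow] at h2
      have h3 : Real.log X = L := by rw [hXdef]
      rw [h3] at h2
      have h4 : (i : ℝ) < 4 * L := by
        have h5 := Real.log_two_gt_d9
        push_cast at h2
        by_contra hcon
        push Not at hcon
        have h6 : 4 * L * Real.log 2 ≤ i * Real.log 2 :=
          mul_le_mul_of_nonneg_right hcon (by linarith)
        have h7 : 4 * L * (69 / 100) ≤ 4 * L * Real.log 2 :=
          mul_le_mul_of_nonneg_left (by linarith) (by linarith)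
        linarith
      rw [hn]
      exact Nat.lt_ceil.2 h4
    · rw [h𝓑]
      refine ⟨⟨hi1, ht1⟩, ?_, htZ⟩
      have h1 : (2 : ℝ) ^ (i + 1) * T0 = 2 * (2 ^ i * T0) := by ring
      rw [h1] at hi2
      exact hi2.le
  · -- the tail
    intro t ht
    have h1 := mel_tl g N M 0 ((c : ℝ) / d) 0 (1 / L ^ 6) s t (X / L ^ C0) hs hΘ0 hS0
      (by rw [Nat.cast_zero, zero_add]; exact hM)
      (by rw [Nat.cast_zero, sub_zero, abs_zero]; positivity)
      hcor.supp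
    rw [← hG] at h1
    set D := 1 / L ^ 6 * (N : ℝ) + 1 with hD
    have hD1 : 1 ≤ D := by
      rw [hD]
      have : 0 ≤ 1 / L ^ 6 * (N : ℝ) := by positivity
      linarith
    have hD2 : D ≤ 2 * X := by
      rw [hD]
      have : 1 / L ^ 6 * (N : ℝ) ≤ 1 * X := mul_le_mul hΘ1 hNX (Nat.cast_nonneg N) (by norm_num)
      linarith
    have hD3 : L ^ 4 * D ≤ |t| := by
      refine le_trans ?_ ht.le
      rw [hT1, hD]
      have h2 : 1 / L ^ 6 * (N : ℝ) ≤ 1 / L ^ 6 * X := mul_le_mul_of_nonneg_left hNX hΘ0.le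
      gcongr
    have hL4' : 20 ≤ L ^ 4 := by
      calc (20 : ℝ) ≤ L := by linarith
        _ = L ^ 1 := (pow_one L).symm
        _ ≤ L ^ 4 := pow_le_pow_right₀ hL1 (by norm_num)
    have h2 := IIL_exp t D (L ^ 4) hD1 hL4' hD3
    have h3 : ‖Mel G t‖ ^ 2 ≤ 9 * (∑ n ∈ Icc 1 N, |g n|) ^ 2 * Real.exp (-(|t| / (20 * D))) := by
      calc ‖Mel G t‖ ^ 2 ≤ (3 * (∑ n ∈ Icc 1 N, |g n|) * Real.exp (-(|t| / (40 * D)))) ^ 2 :=
            pow_le_pow_left₀ (norm_nonneg _) h1 2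
        _ = 9 * (∑ n ∈ Icc 1 N, |g n|) ^ 2 * (Real.exp (-(|t| / (40 * D)))) ^ 2 := by ring
        _ = 9 * (∑ n ∈ Icc 1 N, |g n|) ^ 2 * Real.exp (-(|t| / (20 * D))) := by
            rw [← Real.exp_nat_mul]
            congr 2
            field_simp
            ring
    have h4 := IIL_l1 g N X L hNX hX0.le hS2g
    calc ‖Mel G t‖ ^ 2 ≤ 9 * (∑ n ∈ Icc 1 N, |g n|) ^ 2 * Real.exp (-(|t| / (20 * D))) := h3
      _ ≤ 9 * (X ^ 2 * L ^ 2) * (3208 * (2 * X) ^ 2 * Real.exp (-(L ^ 4 / 40)) * (1 + t ^ 2)⁻¹) := by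
          apply mul_le_mul _ _ (Real.exp_pos _).le (by positivity)
          · linarith
          · refine h2.trans ?_
            have h5 : D ^ 2 ≤ (2 * X) ^ 2 := pow_le_pow_left₀ (by linarith) hD2 2
            gcongr
      _ = _ := by ring
  -- the final estimate
  have hfin1 := IIL_fin1 X L P 1 T0 m C6 E k hX0 hLbig hP0 le_rfl hT0 hm2 hk
  have hfin2 := IIL_fin2 X L P 1 ZB E hX0 hLbig hP0 le_rfl hZB
  have hfin3 := IIL_fin3 X L P C7 E K n I hX1 hLbig hP0 hKdef hn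
    (by rw [hI]; exact Finset.filter_subset _ _)
  have hfin4 := IIL_fin4 X L P 1 E hX2 hLbig hP0 le_rfl hexp hLE hLX
  rw [one_pow, mul_one] at hfin2 hfin4
  have hone : 1 / 4 * (P * X / L ^ E * 1 ^ 2) = 1 / 4 * (P * X / L ^ E) := by ring
  rw [hone] at hfin1
  have hI0 : 0 ≤ ∫ t, ‖ZZ S t‖ ^ 2 * ‖Mel G t‖ ^ 2 := integral_nonneg fun t => by positivity
  rw [← hG, hI2]
  have hpi1 : 1 / (2 * Real.pi) ≤ 1 := by
    rw [div_le_one (by positivity)]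
    linarith [Real.pi_gt_three]
  calc 1 / (2 * Real.pi) * ∫ t, ‖ZZ S t‖ ^ 2 * ‖Mel G t‖ ^ 2
      ≤ 1 * ∫ t, ‖ZZ S t‖ ^ 2 * ‖Mel G t‖ ^ 2 := mul_le_mul_of_nonneg_right hpi1 hI0
    _ ≤ P * X / L ^ E := by
        rw [one_mul]
        linarith

end Pool.Agent.H76.SP
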